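import Mathlib
import Pool.Agent.Lib.helper14.KDim

set_option autoImplicit false

namespace Pool.Agent.Results.MP_f639ae_co.Growth

open Pool.Agent.Lib.H14KDim

/-- Finite `k`-irreducible posets of `k`-dimension `t`. -/
def Obj (k t : ℕ) : Type 1 := {Q : FinPartOrd.{0} // Irr k Q ∧ dimk k Q = t}

/-- Order isomorphism as an equivalence relation. -/
def iso (k t : ℕ) : Setoid (Obj k t) where
  r A B := Nonempty (A.1 ≃o B.1)
  iseqv := ⟨fun _ => ⟨.refl _⟩, fun ⟨e⟩ => ⟨e.symm⟩, fun ⟨e⟩ ⟨f⟩ => ⟨e.trans f⟩⟩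

/-- The number of isomorphism classes. -/
noncomputable def N (k t : ℕ) : ℕ∞ := ENat.card (Quotient (iso k t))

/-- The bipartite poset of a Boolean matrix. -/
def Bip {m : ℕ} (_A : Fin m → Fin m → Bool) : Type := Fin m × Bool

instance {m : ℕ} (A : Fin m → Fin m → Bool) : Fintype (Bip A) := instFintypeProd (Fin m) Bool

instance {m : ℕ} (A : Fin m → Fin m → Bool) : PartialOrder (Bip A) where
  le x y := x = y ∨ (x.2 = false ∧ y.2 = true ∧ A x.1 y.1 = true)
  le_refl _ := .inl rfl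
  le_trans x y z := by
    rintro (rfl | h) (rfl | h')
    exacts [.inl rfl, .inr h', .inr h, absurd (h.2.1.symm.trans h'.1) (by decide)]
  le_antisymm x y := by
    rintro (rfl | h) (h' | h')
    exacts [rfl, rfl, h'.symm, absurd (h.2.1.symm.trans h'.1) (by decide)]

theorem count (k m : ℕ) (hk : 2 ≤ k) (hm : 2 ≤ m) :
    ((2 ^ (m * m) : ℕ) : ℕ∞) ≤ N k (4 * m + 1) * ((4 * k * m + 2) ^ (2 * m) : ℕ) := by
  have hA : ∀ A : Fin m → Fin m → Bool, ∃ c : Quotient (iso k (4 * m + 1)),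
      Nonempty (Bip A ↪o c.out.1) ∧ Nonempty (c.out.1 ↪ Fin (4 * k * m + 2)) := fun A => by
    obtain ⟨Q, _, _, h1, ⟨e⟩, h2, h3⟩ := main (R := Bip A) hk (by
      rintro ⟨a, x⟩ ⟨b, y⟩
      have : Nontrivial (Fin m) := Fin.nontrivial_iff_two_le.2 hm
      obtain ⟨s, hs⟩ := exists_ne a
      exact ⟨(s, !y), fun h => hs (congrArg Prod.fst h),
        fun h => Bool.not_ne_self y (congrArg Prod.snd h)⟩)
    have hc : Fintype.card (Bip A) = 2 * m := by
      change Fintype.card (Fin m × Bool) = _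
      simp [mul_comm]
    rw [hc] at h2 h3
    let B : Obj k (4 * m + 1) := ⟨FinPartOrd.of Q, h1, h2.trans (by ring)⟩
    obtain ⟨f⟩ : Nonempty ((Quotient.mk (iso k _) B).out.1 ≃o Q) := Quotient.mk_out (s := iso k _) B
    refine ⟨Quotient.mk _ B, ⟨e.trans f.symm.toOrderEmbedding⟩, ?_⟩
    rw [Function.Embedding.nonempty_iff_card_le, Fintype.card_congr f.toEquiv, Fintype.card_fin]
    exact h3.trans_eq (by ring)
  choose c e hi using hA
  classical
  let ι : ∀ d : Quotient (iso k (4 * m + 1)), d.out.1 → Fin (4 * k * m + 2) := fun d =>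
    if h : Nonempty (d.out.1 ↪ Fin (4 * k * m + 2)) then h.some else fun _ => 0
  have hι : ∀ A, Function.Injective (ι (c A)) := fun A => by
    simp only [ι, hi A, dif_pos]
    exact Function.Embedding.injective _
  have key : ∀ A i j, A i j = true ↔ (e A).some (i, false) ≤ (e A).some (j, true) := fun A i j => by
    rw [OrderEmbedding.le_iff_le]
    exact ⟨fun h => .inr ⟨rfl, rfl, h⟩, fun h => h.elim
      (fun h => absurd (congrArg Prod.snd h) (by simp)) fun h => h.2.2⟩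
  have inj : Function.Injective fun A =>
      ((c A, fun x : Fin m × Bool => ι (c A) ((e A).some x)) : _ × _) := by
    intro A B h
    obtain ⟨h1, h2⟩ := Prod.mk.inj h
    funext i j
    rw [Bool.eq_iff_iff, key, key]
    have h3 := hι A
    generalize (e A).some = u at h2 ⊢
    generalize (e B).some = v at h2 ⊢
    generalize c A = d at *
    subst h1
    rw [h3 (congrFun h2 (i, false)), h3 (congrFun h2 (j, true))]
  cases finite_or_infinite (Quotient (iso k (4 * m + 1))) with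
  | inr h =>
    rw [N, ENat.card_eq_top_of_infinite, ENat.top_mul (by simp)]
    exact le_top
  | inl h =>
    have := Nat.card_le_card_of_injective _ inj
    rw [N, ENat.card_eq_coe_natCard, ← Nat.cast_mul, Nat.cast_le]
    simpa [Nat.card_prod, ← pow_mul, mul_comm m 2] using this

theorem result (k : ℕ) (hk : 2 ≤ k) :
    (∀ m, 2 ≤ m →
      ((2 ^ (m * m) : ℕ) : ℕ∞) ≤ N k (4 * m + 1) * ((4 * k * m + 2) ^ (2 * m) : ℕ)) ∧
    ∀ c C t₀ : ℕ, ∃ t, t₀ ≤ t ∧ ((C * t ^ c : ℕ) : ℕ∞) < N k t := by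
  refine ⟨fun m => count k m hk, fun c C t₀ => ?_⟩
  obtain ⟨j, hj⟩ : ∃ j, j = 10 * k + C + 4 * c + t₀ + 8 := ⟨_, rfl⟩
  have hsq : ∀ n, 4 ≤ n → n * n ≤ 2 ^ n := fun n hn => by
    induction n, hn using Nat.le_induction with
    | base => norm_num
    | succ n hn ih => rw [pow_succ]; nlinarith
  have h1 := hsq j (by omega)
  obtain ⟨m, hm⟩ : ∃ m, m = 2 ^ j := ⟨_, rfl⟩
  rw [← hm] at h1
  have hjm : j ≤ m := by nlinarith
  refine ⟨4 * m + 1, by omega, lt_of_not_ge fun h => ?_⟩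
  have h2 := (count k m hk (by omega)).trans (mul_le_mul_left h _)
  rw [← Nat.cast_mul, Nat.cast_le] at h2
  have a1 : C ≤ 2 ^ C := Nat.lt_two_pow_self.le
  have a2 : 4 * m + 1 ≤ 2 ^ (j + 3) := by rw [pow_add, ← hm]; omega
  have a3 : 4 * k * m + 2 ≤ 2 ^ (j + 5 * k) := by
    have : 5 * k ≤ 2 ^ (5 * k) := Nat.lt_two_pow_self.le
    rw [pow_add, ← hm]
    nlinarith
  have h3 : 2 ^ (m * m) ≤ 2 ^ (C + (j + 3) * c + (j + 5 * k) * (2 * m)) := by
    rw [pow_add, pow_add, pow_mul 2 (j + 3), pow_mul 2 (j + 5 * k)]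
    exact h2.trans (by gcongr)
  have h4 := (Nat.pow_le_pow_iff_right one_lt_two).1 h3
  have h5 : C + (j + 3) * c + (j + 5 * k) * 2 < m := by nlinarith
  nlinarith [Nat.zero_le (C + (j + 3) * c)]

end Pool.Agent.Results.MP_f639ae_co.Growth
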